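import Mathlib

/-!
# Symmetrization and inner functions in the quaternionic Hardy space

For every `m : ℕ` the slice regular function
`f(q) = ∑ q ^ (n + m) * i ^ n / n!` is bounded on the unit ball of the quaternions, its
symmetrization is the inner function `q ^ (2 m)`, but neither `f` nor its conjugate `f^c` is inner,
because `|f(-r i)| = r ^ m * e ^ r > 1` for `r < 1` close to `1`.
-/

set_option autoImplicit false

open Quaternion Filter Topology MeasureTheory

namespace Pool.Agent.Results.MP_3b44a3_an.NotInner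

/-- The Borel sigma-algebra of the quaternions. -/
noncomputable instance : MeasurableSpace (Quaternion ℝ) := borel _

instance : BorelSpace (Quaternion ℝ) := ⟨rfl⟩

/-- `f` is slice regular on the unit ball: for every imaginary unit `I` the function
`f (x + y I)` on `x ^ 2 + y ^ 2 < 1` has continuous partial derivatives and
`(1 / 2) (∂ₓ + I ∂_y) f (x + y I) = 0`. -/
def SliceRegular (f : ℍ → ℍ) : Prop :=
  ∀ I : ℍ, I * I = -1 → ∃ fx fy : ℝ × ℝ → ℍ,
    ContinuousOn fx {p | p.1 ^ 2 + p.2 ^ 2 < 1} ∧ ContinuousOn fy {p | p.1 ^ 2 + p.2 ^ 2 < 1} ∧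
    ∀ x y : ℝ, x ^ 2 + y ^ 2 < 1 →
      HasDerivAt (fun t : ℝ => f ((t : ℍ) + (y : ℍ) * I)) (fx (x, y)) x ∧
      HasDerivAt (fun t : ℝ => f ((x : ℍ) + (t : ℍ) * I)) (fy (x, y)) y ∧
      ((1 / 2 : ℝ) : ℍ) * (fx (x, y) + I * fy (x, y)) = 0

/-- `f` is on the unit ball the sum of the power series `∑ q ^ n * a n`. -/
def HasCoeffs (f : ℍ → ℍ) (a : ℕ → ℍ) : Prop :=
  ∀ q : ℍ, ‖q‖ < 1 → HasSum (fun n => q ^ n * a n) (f q)

/-- The coefficients of the `*`-product of two power series. -/
noncomputable def starMul (a b : ℕ → ℍ) : ℕ → ℍ := fun n => ∑ k ∈ Finset.range (n + 1), a k * b (n - k)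

/-- The coefficients of the conjugate. -/
noncomputable def conjSeq (a : ℕ → ℍ) : ℕ → ℍ := fun n => star (a n)

/-- `f` is in `H²`, with the coefficients `a`. -/
def InH2 (f : ℍ → ℍ) (a : ℕ → ℍ) : Prop :=
  SliceRegular f ∧ HasCoeffs f a ∧ Summable (fun n => ‖a n‖ ^ 2)

/-- `φ` is inner: slice regular, `|φ| ≤ 1` on the unit ball, and for almost every point `q` of the
unit sphere (three dimensional Hausdorff measure) the radial limit of `φ` at `q` exists and has
modulus one. -/
def IsInner (φ : ℍ → ℍ) : Prop :=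
  SliceRegular φ ∧ (∀ q : ℍ, ‖q‖ < 1 → ‖φ q‖ ≤ 1) ∧
  ∀ᵐ q ∂((μH[3] : Measure ℍ).restrict (Metric.sphere 0 1)),
    ∃ b : ℍ, ‖b‖ = 1 ∧ Tendsto (fun r : ℝ => φ ((r : ℍ) * q)) (𝓝[<] 1) (𝓝 b)

/-! ## Slices -/

/-- The embedding of the complex numbers as the slice of `I`. -/
noncomputable def J (I : ℍ) (hI : I * I = -1) : ℂ →ₐ[ℝ] ℍ := Complex.liftAux I hI

lemma J_apply (I : ℍ) (hI : I * I = -1) (z : ℂ) : J I hI z = (z.re : ℍ) + (z.im : ℍ) * I := by
  unfold J
  rw [Complex.liftAux_apply, Algebra.smul_def]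
  rfl

/-- the embedding as a continuous linear map -/
noncomputable def JL (I : ℍ) (hI : I * I = -1) : ℂ →L[ℝ] ℍ :=
  LinearMap.toContinuousLinearMap (J I hI).toLinearMap

lemma JL_apply (I : ℍ) (hI : I * I = -1) (z : ℂ) : JL I hI z = J I hI z := rfl

lemma J_I (I : ℍ) (hI : I * I = -1) : J I hI Complex.I = I := by
  rw [J_apply]; simp

/-- the quaternion `i` -/
noncomputable def qi : ℍ := ⟨0, 1, 0, 0⟩

@[simp] lemma qi_re : qi.re = 0 := rfl
@[simp] lemma qi_imI : qi.imI = 1 := rfl
@[simp] lemma qi_imJ : qi.imJ = 0 := rfl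
@[simp] lemma qi_imK : qi.imK = 0 := rfl

lemma qi_mul : qi * qi = -1 := by
  apply Quaternion.ext <;> simp

lemma norm_qi : ‖qi‖ = 1 := by
  have h : ‖qi‖ * ‖qi‖ = 1 := by
    rw [← norm_mul, qi_mul]; simp
  nlinarith [norm_nonneg qi]

/-- every quaternion is in a slice -/
lemma exists_slice (q : ℍ) : ∃ (I : ℍ) (hI : I * I = -1) (z : ℂ), J I hI z = q := by
  by_cases h : q.im = 0
  · refine ⟨qi, qi_mul, (q.re : ℂ), ?_⟩
    rw [J_apply]
    have := Quaternion.re_add_im q
    rw [h] at this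
    simpa using this
  · have hn : ‖q.im‖ ≠ 0 := norm_ne_zero_iff.2 h
    have hsq : q.im * q.im = -((‖q.im‖ * ‖q.im‖ : ℝ) : ℍ) := by
      have h1 : star q.im = -q.im := by simp
      have h2 : q.im * star q.im = ((normSq q.im : ℝ) : ℍ) := Quaternion.self_mul_star _
      rw [h1, Quaternion.normSq_eq_norm_mul_self] at h2
      rw [← h2]; simp
    have hI : ((‖q.im‖⁻¹ : ℝ) : ℍ) * q.im * (((‖q.im‖⁻¹ : ℝ) : ℍ) * q.im) = -1 := by
      have h1 : ((‖q.im‖⁻¹ : ℝ) : ℍ) * q.im * (((‖q.im‖⁻¹ : ℝ) : ℍ) * q.im) =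
          ((‖q.im‖⁻¹ : ℝ) : ℍ) * ((‖q.im‖⁻¹ : ℝ) : ℍ) * (q.im * q.im) := by
        rw [mul_assoc, mul_assoc, ← mul_assoc q.im, ← Quaternion.coe_commutes (‖q.im‖⁻¹) q.im,
          mul_assoc]
      rw [h1, hsq, ← Quaternion.coe_mul, mul_neg, ← Quaternion.coe_mul]
      have : ‖q.im‖⁻¹ * ‖q.im‖⁻¹ * (‖q.im‖ * ‖q.im‖) = 1 := by field_simp
      rw [this]; simp
    refine ⟨_, hI, ⟨q.re, ‖q.im‖⟩, ?_⟩
    rw [J_apply]
    have h3 : ((‖q.im‖ : ℝ) : ℍ) * (((‖q.im‖⁻¹ : ℝ) : ℍ) * q.im) = q.im := by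
      rw [← mul_assoc, ← Quaternion.coe_mul, mul_inv_cancel₀ hn]; simp
    show (q.re : ℍ) + ((‖q.im‖ : ℝ) : ℍ) * (((‖q.im‖⁻¹ : ℝ) : ℍ) * q.im) = q
    rw [h3]; exact Quaternion.re_add_im q

/-- a function which is on every slice of the form `g₁ + g₂ c` is slice regular -/
lemma sliceRegular_of (f : ℍ → ℍ) (g₁ g₂ : ℂ → ℂ) (h₁ : Differentiable ℂ g₁)
    (h₂ : Differentiable ℂ g₂) (c : ℍ)
    (hf : ∀ (I : ℍ) (hI : I * I = -1) (z : ℂ), f (J I hI z) = J I hI (g₁ z) + J I hI (g₂ z) * c) :
    SliceRegular f := by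
  intro I hI
  have hc : ∀ g : ℂ → ℂ, Differentiable ℂ g → Continuous (deriv g) := fun g hg =>
    (hg.contDiff (n := 1)).continuous_deriv le_rfl
  have hJ : Continuous (J I hI) := (JL I hI).continuous
  have hz : Continuous (fun p : ℝ × ℝ => ((p.1 : ℂ) + (p.2 : ℂ) * Complex.I)) := by fun_prop
  refine ⟨fun p => J I hI (deriv g₁ ((p.1 : ℂ) + (p.2 : ℂ) * Complex.I)) +
      J I hI (deriv g₂ ((p.1 : ℂ) + (p.2 : ℂ) * Complex.I)) * c,
    fun p => J I hI (deriv g₁ ((p.1 : ℂ) + (p.2 : ℂ) * Complex.I) * Complex.I) +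
      J I hI (deriv g₂ ((p.1 : ℂ) + (p.2 : ℂ) * Complex.I) * Complex.I) * c, ?_, ?_, ?_⟩
  · exact (((hJ.comp ((hc g₁ h₁).comp hz))).add
      ((hJ.comp ((hc g₂ h₂).comp hz)).mul continuous_const)).continuousOn
  · exact (((hJ.comp (((hc g₁ h₁).comp hz).mul continuous_const))).add
      ((hJ.comp (((hc g₂ h₂).comp hz).mul continuous_const)).mul continuous_const)).continuousOn
  · intro x y _
    set z : ℂ := (x : ℂ) + (y : ℂ) * Complex.I with hzdef
    have hx : HasDerivAt (fun t : ℝ => (t : ℂ) + (y : ℂ) * Complex.I) 1 x := by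
      have := (Complex.ofRealCLM.hasDerivAt (x := x)).add_const ((y : ℂ) * Complex.I)
      simpa using this
    have hy : HasDerivAt (fun t : ℝ => (x : ℂ) + (t : ℂ) * Complex.I) Complex.I y := by
      have := ((Complex.ofRealCLM.hasDerivAt (x := y)).mul_const Complex.I).const_add (x : ℂ)
      simpa using this
    have key : ∀ (g : ℂ → ℂ) (hg : Differentiable ℂ g) (u : ℝ → ℂ) (u' : ℂ) (t : ℝ),
        u t = z → HasDerivAt u u' t →
        HasDerivAt (fun s => J I hI (g (u s))) (J I hI (deriv g z * u')) t := by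
      intro g hg u u' t hu hd
      have h1 : HasDerivAt (fun s => g (u s)) (deriv g (u t) * u') t := by
        have := (hg (u t)).hasDerivAt.comp_of_eq t hd rfl
        exact this
      rw [hu] at h1
      exact ((JL I hI).hasFDerivAt.comp_hasDerivAt t h1)
    refine ⟨?_, ?_, ?_⟩
    · have h3 := (key g₁ h₁ _ _ x rfl hx).add ((key g₂ h₂ _ _ x rfl hx).mul_const c)
      rw [mul_one, mul_one] at h3
      refine h3.congr_of_eventuallyEq (Eventually.of_forall fun t => ?_)
      show f _ = J I hI (g₁ _) + J I hI (g₂ _) * c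
      rw [← hf, J_apply]
      simp
    · have h3 := (key g₁ h₁ _ _ y rfl hy).add ((key g₂ h₂ _ _ y rfl hy).mul_const c)
      refine h3.congr_of_eventuallyEq (Eventually.of_forall fun t => ?_)
      show f _ = J I hI (g₁ _) + J I hI (g₂ _) * c
      rw [← hf, J_apply]
      simp
    · show _ * ((J I hI (deriv g₁ z) + J I hI (deriv g₂ z) * c) +
        I * (J I hI (deriv g₁ z * Complex.I) + J I hI (deriv g₂ z * Complex.I) * c)) = 0
      have h4 : ∀ w : ℂ, I * J I hI (w * Complex.I) = - J I hI w := by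
        intro w
        have : I * J I hI (w * Complex.I) = J I hI (Complex.I * (w * Complex.I)) := by
          rw [map_mul (J I hI) Complex.I, J_I]
        rw [this, ← map_neg]
        congr 1
        linear_combination w * Complex.I_mul_I
      rw [mul_add I, ← mul_assoc I, h4, h4]
      have h5 : J I hI (deriv g₁ z) + J I hI (deriv g₂ z) * c +
        (-J I hI (deriv g₁ z) + -J I hI (deriv g₂ z) * c) = 0 := by
        rw [neg_mul]; abel
      rw [h5, mul_zero]

/-! ## The example -/

/-- coefficients of the star exponential `exp (q e)` -/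
noncomputable def ex (e : ℍ) (n : ℕ) : ℍ := ((1 / (n.factorial : ℝ) : ℝ) : ℍ) * e ^ n

/-- the coefficients of `q ^ m * exp (q e)` -/
noncomputable def co (m : ℕ) (e : ℍ) (n : ℕ) : ℍ := if n < m then 0 else ex e (n - m)

/-- the function `q ^ m * exp (q e)` -/
noncomputable def fn (m : ℕ) (e : ℍ) (q : ℍ) : ℍ := ∑' n, q ^ n * co m e n

lemma norm_ex {e : ℍ} (he : ‖e‖ = 1) (n : ℕ) : ‖ex e n‖ = 1 / (n.factorial : ℝ) := by
  unfold ex
  rw [norm_mul, norm_pow, he, Quaternion.norm_coe, one_pow, mul_one, Real.norm_of_nonneg]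
  positivity

lemma summable_co (m : ℕ) {e : ℍ} (he : ‖e‖ = 1) (x : ℝ) :
    Summable (fun n => x ^ n * ‖co m e n‖) := by
  rw [← summable_nat_add_iff m]
  have h : (fun n => x ^ (n + m) * ‖co m e (n + m)‖) = fun n => x ^ m * (x ^ n / n.factorial) := by
    funext n
    have : co m e (n + m) = ex e n := by simp [co]
    rw [this, norm_ex he, pow_add]
    ring
  rw [h]
  exact (Real.summable_pow_div_factorial x).mul_left _

lemma hasSum_fn (m : ℕ) {e : ℍ} (he : ‖e‖ = 1) (q : ℍ) :
    HasSum (fun n => q ^ n * co m e n) (fn m e q) := by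
  apply Summable.hasSum
  apply Summable.of_norm
  have := summable_co m he ‖q‖
  simpa [norm_mul, norm_pow] using this

lemma fn_eq (m : ℕ) {e : ℍ} (he : ‖e‖ = 1) (q : ℍ) :
    fn m e q = q ^ m * ∑' n, q ^ n * ex e n := by
  have h0 : HasSum (fun n => q ^ (n + m) * co m e (n + m)) (fn m e q) := by
    have h1 := (hasSum_nat_add_iff' m).2 (hasSum_fn m he q)
    have h2 : ∑ i ∈ Finset.range m, q ^ i * co m e i = 0 := by
      apply Finset.sum_eq_zero
      intro i hi
      simp [co, Finset.mem_range.1 hi]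
    rw [h2, sub_zero] at h1
    exact h1
  have h3 : (fun n => q ^ (n + m) * co m e (n + m)) = fun n => q ^ m * (q ^ n * ex e n) := by
    funext n
    have : co m e (n + m) = ex e n := by simp [co]
    rw [this, ← mul_assoc, ← pow_add, add_comm]
  rw [h3] at h0
  rw [← h0.tsum_eq, tsum_mul_left]

/-- values on the slices -/
lemma fn_slice (m : ℕ) {e : ℍ} (he : e * e = -1) (he1 : ‖e‖ = 1) (I : ℍ) (hI : I * I = -1)
    (z : ℂ) : fn m e (J I hI z) =
      J I hI (z ^ m * Complex.cos z) + J I hI (z ^ m * Complex.sin z) * e := by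
  have hpow : ∀ n : ℕ, e ^ n = (((Complex.I ^ n).re : ℝ) : ℍ) + (((Complex.I ^ n).im : ℝ) : ℍ) * e := by
    intro n
    rw [← J_apply e he, map_pow, J_I]
  have hexp : ∀ w : ℂ, HasSum (fun n : ℕ => w ^ n / (n.factorial : ℂ)) (Complex.exp w) := by
    intro w
    have := NormedSpace.expSeries_div_hasSum_exp w
    rwa [← Complex.exp_eq_exp_ℂ] at this
  have h1 := hexp (z * Complex.I)
  have h2 := hexp (-z * Complex.I)
  have hconj : ∀ n : ℕ, (starRingEnd ℂ) (Complex.I ^ n) = (-Complex.I) ^ n := by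
    intro n; simp
  have hre : ∀ n : ℕ, ((Complex.I ^ n).re : ℂ) = (Complex.I ^ n + (-Complex.I) ^ n) / 2 := by
    intro n
    rw [← hconj, Complex.re_eq_add_conj]
  have him : ∀ n : ℕ, ((Complex.I ^ n).im : ℂ) =
      (Complex.I ^ n - (-Complex.I) ^ n) / (2 * Complex.I) := by
    intro n
    rw [← hconj, Complex.im_eq_sub_conj]
  have hcos : HasSum (fun n : ℕ => ((Complex.I ^ n).re : ℂ) * (z ^ n / (n.factorial : ℂ)))
      (Complex.cos z) := by
    have h3 := (h1.add h2).div_const 2
    rw [← Complex.cos] at h3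
    have h4 : (fun n : ℕ => ((Complex.I ^ n).re : ℂ) * (z ^ n / (n.factorial : ℂ))) =
        fun i : ℕ => ((z * Complex.I) ^ i / (i.factorial : ℂ) +
          (-z * Complex.I) ^ i / (i.factorial : ℂ)) / 2 := by
      funext n
      rw [hre, mul_pow, mul_pow, neg_pow z, neg_pow Complex.I]
      ring
    rw [h4]; exact h3
  have hsin : HasSum (fun n : ℕ => ((Complex.I ^ n).im : ℂ) * (z ^ n / (n.factorial : ℂ)))
      (Complex.sin z) := by
    have h3 := ((h2.sub h1).mul_right Complex.I).div_const 2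
    rw [← Complex.sin] at h3
    have h4 : (fun n : ℕ => ((Complex.I ^ n).im : ℂ) * (z ^ n / (n.factorial : ℂ))) =
        fun i : ℕ => ((-z * Complex.I) ^ i / (i.factorial : ℂ) -
          (z * Complex.I) ^ i / (i.factorial : ℂ)) * Complex.I / 2 := by
      funext n
      rw [him, mul_pow, mul_pow, neg_pow z, neg_pow Complex.I]
      have h5 : (2 * Complex.I)⁻¹ = -Complex.I / 2 := by
        rw [mul_inv, Complex.inv_I]; ring
      rw [div_eq_mul_inv _ (2 * Complex.I), h5]
      ring
    rw [h4]; exact h3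
  have hJ := (JL I hI)
  have hc1 := (JL I hI).hasSum hcos
  have hs1 := ((JL I hI).hasSum hsin).mul_right e
  have hsum := hc1.add hs1
  rw [fn_eq m he1]
  have : ∀ n : ℕ, J I hI z ^ n * ex e n = JL I hI (((Complex.I ^ n).re : ℂ) * (z ^ n / (n.factorial : ℂ)))
      + JL I hI (((Complex.I ^ n).im : ℂ) * (z ^ n / (n.factorial : ℂ))) * e := by
    intro n
    have h5 : ∀ (x : ℝ) (w : ℂ), JL I hI ((x : ℂ) * w) = (x : ℍ) * JL I hI w := by
      intro x w
      rw [JL_apply, JL_apply, map_mul]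
      congr 1
      rw [J_apply]; simp
    have h6 : JL I hI (z ^ n / (n.factorial : ℂ)) =
        ((1 / (n.factorial : ℝ) : ℝ) : ℍ) * J I hI z ^ n := by
      have : z ^ n / (n.factorial : ℂ) = (((1 / (n.factorial : ℝ) : ℝ)) : ℂ) * z ^ n := by
        push_cast; ring
      rw [this, h5, JL_apply, map_pow]
    rw [h5, h5, h6, ex, hpow n]
    generalize J I hI z ^ n = w
    generalize (1 / (n.factorial : ℝ) : ℝ) = t
    generalize (Complex.I ^ n).re = x
    generalize (Complex.I ^ n).im = y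
    rw [Quaternion.coe_mul_eq_smul, Quaternion.coe_mul_eq_smul, Quaternion.coe_mul_eq_smul,
      Quaternion.coe_mul_eq_smul, Quaternion.coe_mul_eq_smul, mul_smul_comm, mul_add,
      Quaternion.mul_coe_eq_smul, mul_smul_comm, smul_add, smul_smul, smul_smul, smul_smul,
      smul_smul, smul_mul_assoc, mul_comm x t, mul_comm y t]
  rw [tsum_congr this, hsum.tsum_eq, mul_add, map_mul, map_mul, map_pow, mul_assoc]
  rfl

/-- the star product of the two exponentials -/
lemma starMul_co (m : ℕ) {e : ℍ} : starMul (co m e) (co m (-e)) =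
    fun n => if n = 2 * m then 1 else 0 := by
  have hX : ∀ e' : ℍ, PowerSeries.mk (co m e') =
      PowerSeries.X ^ m * PowerSeries.mk (ex e') := by
    intro e'
    ext1 n
    rw [PowerSeries.coeff_mk, PowerSeries.coeff_X_pow_mul']
    simp only [PowerSeries.coeff_mk, co]
    by_cases h : n < m
    · simp [h]
    · simp [h, not_lt.1 h]
  have hE : PowerSeries.mk (ex e) * PowerSeries.mk (ex (-e)) = (1 : PowerSeries ℍ) := by
    ext1 n
    rw [PowerSeries.coeff_mul]
    simp only [PowerSeries.coeff_mk, PowerSeries.coeff_one]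
    have hcomm : Commute e (-e) := (Commute.refl e).neg_right
    have h1 := hcomm.add_pow' n
    rw [add_neg_cancel] at h1
    have h2 : ∑ x ∈ Finset.HasAntidiagonal.antidiagonal n, ex e x.1 * ex (-e) x.2 =
        ((1 / (n.factorial : ℝ) : ℝ) : ℍ) * (0 : ℍ) ^ n := by
      rw [h1, Finset.mul_sum]
      apply Finset.sum_congr rfl
      rintro ⟨k, l⟩ hkl
      rw [Finset.HasAntidiagonal.mem_antidiagonal] at hkl
      simp only at hkl ⊢
      subst hkl
      unfold ex
      rw [Quaternion.coe_mul_eq_smul, Quaternion.coe_mul_eq_smul, Quaternion.coe_mul_eq_smul,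
        smul_mul_smul_comm, ← Nat.cast_smul_eq_nsmul ℝ, smul_smul]
      congr 1
      have h7 : (((k + l).choose k : ℕ) : ℝ) * k.factorial * l.factorial = (k + l).factorial := by
        have h9 := Nat.choose_mul_factorial_mul_factorial (Nat.le_add_right k l)
        rw [Nat.add_sub_cancel_left] at h9
        exact_mod_cast h9
      rw [← h7]
      have h8 : (((k + l).choose k : ℕ) : ℝ) ≠ 0 := by
        exact_mod_cast (Nat.choose_pos (Nat.le_add_right k l)).ne'
      field_simp
    rw [h2]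
    by_cases h : n = 0
    · subst h; simp
    · simp [h]
  funext n
  have h3 : starMul (co m e) (co m (-e)) n =
      PowerSeries.coeff n (PowerSeries.mk (co m e) * PowerSeries.mk (co m (-e))) := by
    rw [PowerSeries.coeff_mul, Finset.Nat.sum_antidiagonal_eq_sum_range_succ_mk]
    simp [starMul]
  have h4 : PowerSeries.mk (co m e) * PowerSeries.mk (co m (-e)) =
      (PowerSeries.X ^ (2 * m) : PowerSeries ℍ) := by
    rw [hX, hX, PowerSeries.X_pow_mul (φ := PowerSeries.mk (ex (-e))),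
      PowerSeries.X_pow_mul (φ := PowerSeries.mk (ex e)), mul_assoc,
      PowerSeries.X_pow_mul, mul_assoc, ← pow_add, ← mul_assoc, hE, one_mul, two_mul]
  rw [h3, h4, PowerSeries.coeff_X_pow]

/-- **Main result.** For every `m` there is a bounded slice regular function `f` (in particular `f`
is in `H²`), with conjugate `f^c`, whose symmetrization `f^s = f * f^c = f^c * f` is the inner
function `q ^ (2 m)`, while neither `f` nor `f^c` is inner. -/
theorem result (m : ℕ) : ∃ (f fc fs : ℍ → ℍ) (a : ℕ → ℍ),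
    InH2 f a ∧ (∃ C : ℝ, ∀ q : ℍ, ‖q‖ < 1 → ‖f q‖ ≤ C) ∧
    InH2 fc (conjSeq a) ∧
    InH2 fs (starMul a (conjSeq a)) ∧ starMul a (conjSeq a) = starMul (conjSeq a) a ∧
    (∀ q : ℍ, fs q = q ^ (2 * m)) ∧ IsInner fs ∧ ¬ IsInner f ∧ ¬ IsInner fc := by
  have hn1 : ‖-qi‖ = 1 := by rw [norm_neg, norm_qi]
  have hm1 : (-qi) * (-qi) = -1 := by rw [neg_mul_neg, qi_mul]
  have hstar : star qi = -qi := by apply Quaternion.ext <;> simp
  have hconj : conjSeq (co m qi) = co m (-qi) := by
    funext n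
    unfold conjSeq co
    split_ifs with h
    · simp
    · unfold ex
      rw [star_mul, star_pow, hstar, Quaternion.star_coe, Quaternion.coe_commutes]
  have hconj' : co m (- -qi) = co m qi := by rw [neg_neg]
  have hH : ∀ e : ℍ, e * e = -1 → ‖e‖ = 1 → InH2 (fn m e) (co m e) := by
    intro e he he1
    refine ⟨?_, fun q _ => hasSum_fn m he1 q, ?_⟩
    · refine sliceRegular_of _ (fun z => z ^ m * Complex.cos z) (fun z => z ^ m * Complex.sin z)
        ?_ ?_ e (fun I hI z => fn_slice m he he1 I hI z)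
      · exact (differentiable_id.pow m).mul Complex.differentiable_cos
      · exact (differentiable_id.pow m).mul Complex.differentiable_sin
    · have h1 : Summable (fun n => ‖co m e n‖) := by
        have := summable_co m he1 1
        simpa using this
      refine Summable.of_nonneg_of_le (fun n => by positivity) (fun n => ?_) h1
      have h2 : ‖co m e n‖ ≤ 1 := by
        unfold co
        split_ifs with h
        · simp
        · rw [norm_ex he1]
          rw [div_le_one (by positivity)]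
          exact_mod_cast Nat.succ_le_of_lt (Nat.factorial_pos _)
      nlinarith [norm_nonneg (co m e n)]
  have hbig : ∃ r : ℝ, 0 < r ∧ r < 1 ∧ 1 < r ^ m * Real.exp r := by
    have h1 : Tendsto (fun r : ℝ => r ^ m * Real.exp r) (𝓝[<] 1) (𝓝 (1 ^ m * Real.exp 1)) :=
      ((continuous_pow m).mul Real.continuous_exp).continuousAt.continuousWithinAt
    have h2 : (1 : ℝ) < 1 ^ m * Real.exp 1 := by
      rw [one_pow, one_mul]; exact Real.one_lt_exp_iff.2 one_pos
    have h3 := h1.eventually (lt_mem_nhds h2)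
    have h4 : ∀ᶠ r : ℝ in 𝓝[<] 1, r ∈ Set.Ioo (0:ℝ) 1 := Ioo_mem_nhdsLT one_pos
    obtain ⟨r, h5, h6⟩ := (h3.and h4).exists
    exact ⟨r, h6.1, h6.2, h5⟩
  have hnot : ∀ e : ℍ, e * e = -1 → ‖e‖ = 1 → ¬ IsInner (fn m e) := by
    intro e he he1 hin
    obtain ⟨r, hr0, hr1, hr⟩ := hbig
    have hq : J e he (-(r : ℂ) * Complex.I) = -((r : ℍ) * e) := by
      rw [J_apply]; simp
    have hnq : ‖-((r : ℍ) * e)‖ = r := by
      rw [norm_neg, norm_mul, he1, Quaternion.norm_coe, mul_one, Real.norm_of_nonneg hr0.le]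
    have h1 := hin.2.1 (-((r : ℍ) * e)) (by rw [hnq]; exact hr1)
    have h2 : fn m e (-((r : ℍ) * e)) = (-((r : ℍ) * e)) ^ m * ((Real.exp r : ℝ) : ℍ) := by
      conv_lhs => rw [← hq]
      rw [fn_slice m he he1 e he]
      conv_lhs =>
        enter [2, 2]
        rw [← J_I e he]
      rw [← map_mul, ← map_add]
      have h3 : (-(r : ℂ) * Complex.I) ^ m * Complex.cos (-(r : ℂ) * Complex.I) +
          (-(r : ℂ) * Complex.I) ^ m * Complex.sin (-(r : ℂ) * Complex.I) * Complex.I =
          (-(r : ℂ) * Complex.I) ^ m * Complex.exp r := by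
        have h4 : Complex.exp (r : ℂ) = Complex.cos (-(r : ℂ) * Complex.I) +
            Complex.sin (-(r : ℂ) * Complex.I) * Complex.I := by
          rw [← Complex.exp_mul_I]
          congr 1
          linear_combination (r : ℂ) * Complex.I_mul_I
        rw [h4]; ring
      rw [h3, map_mul, map_pow, hq]
      congr 1
      rw [J_apply, ← Complex.ofReal_exp, Complex.ofReal_re, Complex.ofReal_im]
      simp
    rw [h2, norm_mul, norm_pow, hnq, Quaternion.norm_coe, Real.norm_of_nonneg (Real.exp_pos r).le]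
      at h1
    linarith
  have hfs : SliceRegular (fun q : ℍ => q ^ (2 * m)) :=
    sliceRegular_of _ (fun z => z ^ (2 * m)) (fun _ => 0) (differentiable_id.pow _)
      (differentiable_const _) 0 (fun I hI z => by simp)
  have hsm : starMul (co m qi) (conjSeq (co m qi)) = fun n => if n = 2 * m then 1 else 0 := by
    rw [hconj]; exact starMul_co m
  have hsm' : starMul (conjSeq (co m qi)) (co m qi) = fun n => if n = 2 * m then 1 else 0 := by
    rw [hconj, ← hconj']; exact starMul_co m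
  refine ⟨fn m qi, fn m (-qi), fun q => q ^ (2 * m), co m qi, hH qi qi_mul norm_qi, ?_, ?_, ?_,
    by rw [hsm, hsm'], fun q => rfl, ?_, hnot qi qi_mul norm_qi, hnot _ hm1 hn1⟩
  · refine ⟨∑' n, ‖co m qi n‖, fun q hq => ?_⟩
    have h1 : Summable (fun n => ‖co m qi n‖) := by
      have := summable_co m norm_qi 1
      simpa using this
    refine tsum_of_norm_bounded h1.hasSum (fun n => ?_)
    rw [norm_mul, norm_pow]
    have := pow_le_one₀ (n := n) (norm_nonneg q) hq.le
    nlinarith [norm_nonneg (co m qi n)]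
  · rw [hconj]; exact hH _ hm1 hn1
  · refine ⟨hfs, fun q _ => ?_, ?_⟩
    · rw [hsm]
      have h1 := hasSum_ite_eq (2 * m) (q ^ (2 * m))
      have h2 : (fun n => q ^ n * (if n = 2 * m then (1 : ℍ) else 0)) =
          fun n => if n = 2 * m then q ^ (2 * m) else 0 := by
        funext n
        split_ifs with h
        · rw [h, mul_one]
        · rw [mul_zero]
      show HasSum (fun n => q ^ n * (if n = 2 * m then (1 : ℍ) else 0)) (q ^ (2 * m))
      rw [h2]; exact h1
    · rw [hsm]
      refine summable_of_ne_finset_zero (s := {2 * m}) fun n hn => ?_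
      have : n ≠ 2 * m := by simpa using hn
      simp [this]
  · refine ⟨hfs, fun q hq => ?_, ?_⟩
    · rw [norm_pow]; exact pow_le_one₀ (norm_nonneg q) hq.le
    · refine ae_restrict_of_forall_mem Metric.isClosed_sphere.measurableSet fun q hq => ?_
      have hq1 : ‖q‖ = 1 := by simpa using hq
      refine ⟨q ^ (2 * m), by rw [norm_pow, hq1, one_pow], ?_⟩
      have hc : Continuous (fun r : ℝ => ((r : ℍ) * q) ^ (2 * m)) :=
        ((Quaternion.continuous_coe.mul continuous_const).pow _)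
      have := hc.tendsto (1 : ℝ)
      simp only [Quaternion.coe_one, one_mul] at this
      exact this.mono_left nhdsWithin_le_nhds

end Pool.Agent.Results.MP_3b44a3_an.NotInner
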